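import Pool.Agent.Helper92.AG.Defs
import Pool.Agent.Helper86.AC.V

/-!
# AG-Sh: the shear, and the integral over the frames as the integral of `Rt` over the directions
-/

open MeasureTheory Real Set Filter Topology

set_option autoImplicit false

namespace Pool.Agent.Helper92.AG

open Pool.Agent.Helper22.AE
open Pool.Agent.Helper92.GC (dt tp Tq uu tt arc dd)
open Pool.Agent.Helper75.TW (m20)
open Pool.Agent.Helper60.LT (Fr Tf xf yf df vf fr sl Cv Hom)
open Pool.Agent.Helper60.QL (R3)
open Pool.Agent.Helper48.QL (shr shr_meas shear_int shr_neg)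
open Pool.Agent.Helper3.AC
open Pool.Agent.Helper86.AC (IH_eq shr_UP UP_meas)


theorem IH_shr {c₁ B₀ B X : ℝ} {h : ℝ × ℝ → ℝ} (hh : Hom c₁ B₀ h) (hB : 1 ≤ B) (hX : 0 < X) {t₀ : ℝ} (ht : |t₀| ≤ 3) {S : Finset (ℤ × ℤ)} (hS : ∀ k ∈ S, 0 < k.1) :
    IH h B X S ≤ ∫⁻ f in UP (4 * B) X, ENNReal.ofReal (mf h t₀ S f) ∧
    ∫⁻ f in UP B X, ENNReal.ofReal (mf h t₀ S f) ≤ IH h (4 * B) X S := by
  have hmf : Measurable (fun f : Fr => ENNReal.ofReal (mf h t₀ S f)) := (mf_meas hh t₀ S).ennreal_ofReal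
  have hind : ∀ B' : ℝ, Measurable ((UP B' X).indicator fun f => ENNReal.ofReal (mf h t₀ S f)) := fun B' => hmf.indicator (UP_meas _ _)
  constructor
  · rw [IH_eq hh t₀ hS]
    calc ∫⁻ f in UP B X, ENNReal.ofReal (mf h t₀ S (shr t₀ f))
        ≤ ∫⁻ f, (UP (4 * B) X).indicator (fun f => ENNReal.ofReal (mf h t₀ S f)) (shr t₀ f) := by
          rw [← lintegral_indicator (UP_meas _ _)]
          refine lintegral_mono fun f => ?_
          by_cases hf : f ∈ UP B X
          · rw [indicator_of_mem hf, indicator_of_mem (shr_UP hX.le (by linarith) ht hf)]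
          · rw [indicator_of_notMem hf]
            exact zero_le
      _ = ∫⁻ f, (UP (4 * B) X).indicator (fun f => ENNReal.ofReal (mf h t₀ S f)) f := shear_int (hind _) t₀
      _ = _ := by rw [lintegral_indicator (UP_meas _ _)]
  · rw [IH_eq hh t₀ hS]
    calc ∫⁻ f in UP B X, ENNReal.ofReal (mf h t₀ S f)
        = ∫⁻ f, (UP B X).indicator (fun f => ENNReal.ofReal (mf h t₀ S f)) f := by rw [lintegral_indicator (UP_meas _ _)]
      _ = ∫⁻ f, (UP B X).indicator (fun f => ENNReal.ofReal (mf h t₀ S f)) (shr t₀ f) := (shear_int (hind _) t₀).symm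
      _ ≤ ∫⁻ f, (UP (4 * B) X).indicator (fun f => ENNReal.ofReal (mf h t₀ S (shr t₀ f))) f := by
          refine lintegral_mono fun f => ?_
          by_cases hf : shr t₀ f ∈ UP B X
          · have h2 : f ∈ UP (4 * B) X := by
              have := shr_UP (t₀ := -t₀) hX.le (by linarith) (by rw [abs_neg]; exact ht) hf
              rwa [shr_neg] at this
            rw [indicator_of_mem hf, indicator_of_mem h2]
          · rw [indicator_of_notMem hf]
            exact zero_le
      _ = _ := by rw [lintegral_indicator (UP_meas _ _)]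

theorem int_Rt {F : Fr → ENNReal} (hF : Measurable F) : ∫⁻ f, F f = ∫⁻ θ in Ioc (-π) π, Rt F θ :=
  Pool.Agent.Helper60.LT.int_fr hF

end Pool.Agent.Helper92.AG
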